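import Pool.Agent.V7H76.AD.Spec

/-!
# Project AD, piece LAB: the choice of a label
-/

set_option autoImplicit false

open Finset
open scoped Classical

namespace Pool.Agent.V7H58.AD

open Pool.Agent.V7H76.AD

theorem t_LAB : S_LAB := by
  intro P t A O lab hP hAP hOA hAO hA hbal
  set g0 := t / P with hg0
  set c : ℕ → ℕ := fun α => ((range t).filter (fun r => r / P = g0 ∧ lab r = α)).card with hc
  have hO : O.Nonempty := by
    rw [← card_pos]
    have := card_pos.2 hA
    omega
  obtain ⟨α, hα, hmin⟩ := exists_min_image O c hO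
  -- the group has less than `P` elements before `t`
  have hG : ((range t).filter (fun r => r / P = g0)).card + 1 ≤ P := by
    have h1 : (range t).filter (fun r => r / P = g0) ⊆ Ico (g0 * P) t := by
      intro r hr
      rw [mem_filter, mem_range] at hr
      rw [mem_Ico]
      refine ⟨?_, hr.1⟩
      rw [← hr.2]
      exact Nat.div_mul_le_self r P
    have h2 := card_le_card h1
    rw [Nat.card_Ico] at h2
    have h3 : g0 * P ≤ t := Nat.div_mul_le_self t P
    have h4 : t < (g0 + 1) * P := by
      rw [hg0]
      exact Nat.lt_mul_of_div_lt (Nat.lt_succ_self _) hP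
    have h5 : (g0 + 1) * P = g0 * P + P := by ring
    omega
  have hsum : ∑ β ∈ O, c β ≤ ((range t).filter (fun r => r / P = g0)).card := by
    rw [hc]
    have h1 : ∑ β ∈ O, ((range t).filter (fun r => r / P = g0 ∧ lab r = β)).card =
        (O.biUnion fun β => (range t).filter (fun r => r / P = g0 ∧ lab r = β)).card := by
      rw [card_biUnion]
      intro x _ y _ hxy
      rw [Function.onFun, disjoint_left]
      intro r hr hr'
      exact hxy ((mem_filter.1 hr).2.2.symm.trans (mem_filter.1 hr').2.2)
    rw [h1]
    apply card_le_card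
    intro r hr
    rw [mem_biUnion] at hr
    obtain ⟨β, _, hr⟩ := hr
    rw [mem_filter] at hr ⊢
    exact ⟨hr.1, hr.2.1⟩
  have hOc : O.card * c α ≤ ∑ β ∈ O, c β := by
    rw [← smul_eq_mul, ← sum_const]
    exact sum_le_sum hmin
  have hmain : A.card * (c α + 1) ≤ 3 * P := by
    have h1 : A.card * c α ≤ 2 * O.card * c α := Nat.mul_le_mul_right _ hAO
    have h2 : 2 * O.card * c α = 2 * (O.card * c α) := by ring
    have h3 : A.card * (c α + 1) = A.card * c α + A.card := by ring
    omega
  refine ⟨α, hα, fun lab' hlab ht g β hβ => ?_⟩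
  have hfil : (range t).filter (fun r => r / P = g ∧ lab' r = β) =
      (range t).filter (fun r => r / P = g ∧ lab r = β) := by
    apply filter_congr
    intro r hr
    rw [hlab r (mem_range.1 hr)]
  rw [range_add_one, filter_insert]
  by_cases h : t / P = g ∧ lab' t = β
  · rw [if_pos h, card_insert_of_notMem (by simp), hfil]
    obtain ⟨h1, h2⟩ := h
    have h3 : β = α := by rw [← h2, ht]
    subst h3
    rw [← h1]
    exact hmain
  · rw [if_neg h, hfil]
    exact hbal g β hβ

end Pool.Agent.V7H58.AD
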